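import Pool.Agent.R991.FloSing

/-!
# MP_61df98_mp: nonzero singular points of the antisymmetric Floquet isospectral variety, odd `q`
-/

set_option autoImplicit false

namespace Pool.Agent.R991.Flo

open Polynomial

/-- The `5`-periodic potential `(s, is, 0, -is, -s)`. -/
noncomputable def v5 (s : ℂ) (j : ℕ) : ℂ :=
  if j % 5 = 0 then s else if j % 5 = 1 then Complex.I * s else if j % 5 = 2 then 0
  else if j % 5 = 3 then - (Complex.I * s) else - s

lemma v5_per (s : ℂ) (j : ℕ) : v5 s (j + 5) = v5 s j := by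
  simp [v5]

lemma v5_trace (s : ℂ) (hs : s ^ 2 = 1 - 2 * Complex.I) :
    (tm (xs (v5 s)) 5).trace = (tm (xs (fun _ => (0 : ℂ))) 5).trace := by
  have e0 : xs (v5 s) 0 = X - C s := by simp [xs, v5]
  have e1 : xs (v5 s) 1 = X - C Complex.I * C s := by simp [xs, v5]
  have e2 : xs (v5 s) 2 = X := by simp [xs, v5]
  have e3 : xs (v5 s) 3 = X + C Complex.I * C s := by simp [xs, v5]
  have e4 : xs (v5 s) 4 = X + C s := by simp [xs, v5]
  have f : ∀ j, xs (fun _ => (0 : ℂ)) j = X := by intro j; simp [xs]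
  have hI : (C Complex.I : ℂ[X]) ^ 2 = -1 := by
    rw [← C_pow, Complex.I_sq]; simp
  have hs' : (C s : ℂ[X]) ^ 2 = 1 - 2 * C Complex.I := by
    rw [← C_pow, hs]
    simp only [C_sub, C_mul, C_1]
    congr 2
  simp only [tm, e0, e1, e2, e3, e4, f, T, Matrix.trace_fin_two, Matrix.mul_apply,
    Fin.sum_univ_two, Matrix.of_apply, Matrix.cons_val', Matrix.cons_val_zero, Matrix.cons_val_one,
    Matrix.one_apply]
  simp
  linear_combination (-X ^ 3 * (C s) ^ 2 + X * ((C s) ^ 4 + (C s) ^ 2)) * hI - X * (C s) ^ 2 * hs'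

lemma v5_eval (s : ℂ) (hs : s ^ 2 = 1 - 2 * Complex.I) (l : ℂ) :
    (tm (fun j => l - v5 s j) 5).trace = (tm (fun _ => l) 5).trace := by
  have h := congrArg (Polynomial.eval l) (v5_trace s hs)
  have e : ∀ v : ℕ → ℂ, Polynomial.eval l (tm (xs v) 5).trace = (tm (fun j => l - v j) 5).trace := by
    intro v
    have := tm_map (evalRingHom l) (xs v) 5
    have e3 : (fun j => evalRingHom l (xs v j)) = fun j => l - v j := by
      funext j; simp [xs]
    rw [e3] at this
    rw [← this, Matrix.trace_fin_two, Matrix.trace_fin_two, eval_add]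
    rfl
  rw [e, e] at h
  simpa using h

/-- The monodromy matrices at the two closed gaps `λ = 2 cos θ`. -/
lemma v5_scalar (s : ℂ) (hs : s ^ 2 = 1 - 2 * Complex.I) (b : ℕ) (θ : ℂ)
    (h0 : Complex.sin θ ≠ 0) (h1 : Complex.sin (5 * θ) ≠ 0)
    (h2 : Complex.sin (b * (5 * θ)) = 0) :
    (∃ c : ℂ, tm (fun j => 2 * Complex.cos θ - v5 s j) (5 * b) =
        c • (1 : Matrix (Fin 2) (Fin 2) ℂ)) ∧
      ∃ c : ℂ, tm (fun _ => 2 * Complex.cos θ) (5 * b) = c • (1 : Matrix (Fin 2) (Fin 2) ℂ) := by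
  constructor
  · rw [tm_mul _ 5 (fun j => by simp only [v5_per])]
    apply scalar_of_sin _ (det_tm _ _) (5 * θ) _ b h1 h2
    rw [v5_eval s hs, trace_tm_const θ 5 h0]
    norm_num
  · rw [tm_mul _ 5 (fun j => rfl)]
    apply scalar_of_sin _ (det_tm _ _) (5 * θ) _ b h1 h2
    rw [trace_tm_const θ 5 h0]
    norm_num

theorem main (b : ℕ) (hb : Odd b) (hb3 : 3 ≤ b) :
    ∃ a ∈ zeroSet (5 * b), a ≠ 0 ∧ 2 ≤ mult (5 * b) a := by
  obtain ⟨s, hs⟩ : ∃ s : ℂ, s ^ 2 = 1 - 2 * Complex.I := by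
    obtain ⟨s, hs⟩ := IsAlgClosed.exists_pow_nat_eq (1 - 2 * Complex.I : ℂ) (n := 2) (by norm_num)
    exact ⟨s, hs⟩
  have hs0 : s ≠ 0 := by
    rintro rfl
    have := congrArg Complex.re hs
    simp at this
  obtain ⟨n, hn⟩ : ∃ n, 5 * b = 2 + n := ⟨5 * b - 2, by omega⟩
  have hn1 : 1 ≤ n := by omega
  have hodd : Odd (2 + n) := by
    rw [← hn]; exact Odd.mul (by decide) hb
  -- the angle
  have hbR : (b : ℝ) ≠ 0 := by positivity
  set t : ℝ := Real.pi / (5 * b) with ht
  have hb3R : (3 : ℝ) ≤ b := by exact_mod_cast hb3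
  have htpos : 0 < t := by positivity
  have h5t : 5 * t = Real.pi / b := by rw [ht]; field_simp
  have h5t' : 5 * t ≤ Real.pi / 3 := by
    rw [h5t]
    exact div_le_div_of_nonneg_left Real.pi_pos.le (by norm_num) hb3R
  have hpi := Real.pi_pos
  have hst : Real.sin t ≠ 0 := (Real.sin_pos_of_pos_of_lt_pi htpos (by linarith)).ne'
  have hct : Real.cos t ≠ 0 := (Real.cos_pos_of_mem_Ioo ⟨by linarith, by linarith⟩).ne'
  have hs5 : Real.sin (5 * t) ≠ 0 :=
    (Real.sin_pos_of_pos_of_lt_pi (by linarith) (by linarith)).ne'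
  have hsb : Real.sin (b * (5 * t)) = 0 := by
    rw [h5t, mul_div_cancel₀ _ hbR, Real.sin_pi]
  have hst' : Real.sin (Real.pi - t) ≠ 0 := by rwa [Real.sin_pi_sub]
  have hs5' : Real.sin (5 * (Real.pi - t)) ≠ 0 := by
    have : 5 * (Real.pi - t) = (Real.pi - 5 * t) + (2 : ℕ) * (2 * Real.pi) := by push_cast; ring
    rw [this, Real.sin_add_nat_mul_two_pi, Real.sin_pi_sub]
    exact hs5
  have hsb' : Real.sin (b * (5 * (Real.pi - t))) = 0 := by
    have : b * (5 * (Real.pi - t)) = ((5 * b - 1 : ℤ) : ℝ) * Real.pi := by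
      have : (b : ℝ) * (5 * t) = Real.pi := by rw [h5t, mul_div_cancel₀ _ hbR]
      push_cast
      linear_combination -this
    rw [this, Real.sin_int_mul_pi]
  have A := v5_scalar s hs b (t : ℂ) (by exact_mod_cast hst) (by exact_mod_cast hs5)
    (by exact_mod_cast hsb)
  have B := v5_scalar s hs b ((Real.pi - t : ℝ) : ℂ) (by exact_mod_cast hst')
    (by exact_mod_cast hs5') (by exact_mod_cast hsb')
  have hcos : 2 * Complex.cos ((Real.pi - t : ℝ) : ℂ) = - (2 * Complex.cos (t : ℂ)) := by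
    rw [← Complex.ofReal_cos, ← Complex.ofReal_cos, Real.cos_pi_sub]
    push_cast; ring
  rw [hcos, hn] at B
  rw [hn] at A
  have hanti : antisymmetric (2 + n) (fun j : Fin ((2 + n) / 2) => v5 s j.val)
      = fun j => v5 s j.val := by
    obtain ⟨c, hc⟩ := hb
    funext j
    have hj := j.2
    simp only [antisymmetric]
    split_ifs with h1 h2
    · rfl
    · have : (2 + n - 1 - j.val) % 5 = 4 - j.val % 5 := by omega
      have h5 : j.val % 5 < 5 := Nat.mod_lt _ (by norm_num)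
      simp only [v5, this]
      interval_cases j.val % 5 <;> simp
    · have : j.val % 5 = 2 := by omega
      simp [v5, this]
  have hD : D (fun j : Fin (2 + n) => v5 s j.val) = D (0 : Fin (2 + n) → ℂ) := by
    have e1 := D_eq_trace n hn1 (v5 s)
    have e2 := D_eq_trace n hn1 (fun _ => (0 : ℂ))
    have e3 : (tm (xs (v5 s)) (2 + n)).trace = (tm (xs (fun _ => (0 : ℂ))) (2 + n)).trace := by
      rw [← hn, tm_mul _ 5 (fun j => by simp only [xs, v5_per]), tm_mul _ 5 (fun j => rfl)]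
      exact trace_pow_congr _ _ (det_tm _ _) (det_tm _ _) (v5_trace s hs) b
    rw [e1, e3, ← e2]
    rfl
  have hl : 2 * Complex.cos (t : ℂ) ≠ 0 := by
    rw [← Complex.ofReal_cos]
    exact mul_ne_zero (by norm_num) (by exact_mod_cast hct)
  have := singular_of n hn1 hodd (v5 s) hanti hD (2 * Complex.cos (t : ℂ)) hl A.1 B.1 A.2 B.2
  rw [← hn] at this
  refine ⟨fun j => v5 s j.val, this.1, ?_, this.2⟩
  intro h0
  have := congrFun h0 ⟨0, by omega⟩
  simp [v5] at this
  exact hs0 this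

end Pool.Agent.R991.Flo

namespace Pool.Agent.Results.MP_61df98_mp.Singular

open Pool.Agent.R991.Flo

/-- For every odd `b ≥ 3` and `q = 5b` (the smallest case is `q = 15`) the set `V(I')` has a
nonzero point of multiplicity at least `2`; so statement (a) fails for all these odd `q`. -/
theorem result (b : ℕ) (hb : Odd b) (hb3 : 3 ≤ b) :
    ∃ a ∈ zeroSet (5 * b), a ≠ 0 ∧ 2 ≤ mult (5 * b) a :=
  main b hb hb3

end Pool.Agent.Results.MP_61df98_mp.Singular
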